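import Pool.Agent.H4.FV.Stm

set_option autoImplicit false

/-! Identities of groups of class two in which squares are central. -/

namespace Pool.Agent.H763.FV

open Pool.Agent.N649.SG.Light
open Pool.Agent.H4.FV
open scoped IsMulCommutative

/-- number of occurrences of a variable -/
def cnt (i : ℕ) : T → ℕ
  | .var n => if n = i then 1 else 0
  | .mul s t => cnt i s + cnt i t

/-- number of pairs: an occurrence of `j` before an occurrence of `i` -/
def inv (i j : ℕ) : T → ℕ
  | .var _ => 0
  | .mul s t => inv i j s + inv i j t + cnt j s * cnt i t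

/-- a bound of the variables -/
def bd : T → ℕ
  | .var n => n + 1
  | .mul s t => max (bd s) (bd t)

/-! ### One and two variables -/

theorem val_one {G : Type} [Group G] (z : G) (i : ℕ) (t : T) :
    t.val (fun a b : G => a * b) (fun k => if k = i then z else 1) = z ^ cnt i t := by
  induction t with
  | var n =>
    simp only [T.val, cnt]
    split_ifs <;> simp
  | mul s t ihs iht =>
    simp only [T.val, cnt]
    rw [ihs, iht, pow_add]

theorem comm_pow {G : Type} [Group G] {x y d : G} (h : y * x = x * y * d) (hx : Commute d x)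
    (hy : Commute d y) (a b : ℕ) : y ^ b * x ^ a = x ^ a * y ^ b * d ^ (a * b) := by
  have h1 : ∀ b : ℕ, y ^ b * x = x * y ^ b * d ^ b := by
    intro b
    induction b with
    | zero => simp
    | succ b ih =>
      have e1 : d ^ b * y = y * d ^ b := (hy.pow_left b).eq
      calc y ^ (b + 1) * x = y * (y ^ b * x) := by rw [pow_succ']; group
        _ = y * x * y ^ b * d ^ b := by rw [ih]; group
        _ = x * y * (d * y ^ b) * d ^ b := by rw [h]; group
        _ = x * y * (y ^ b * d) * d ^ b := by rw [(hy.pow_right b).eq]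
        _ = x * y ^ (b + 1) * d ^ (b + 1) := by rw [pow_succ', pow_succ']; group
  induction a with
  | zero => simp
  | succ a ih =>
    calc y ^ b * x ^ (a + 1) = (y ^ b * x ^ a) * x := by rw [pow_succ]; group
      _ = x ^ a * y ^ b * (d ^ (a * b) * x) := by rw [ih]; group
      _ = x ^ a * (y ^ b * x) * d ^ (a * b) := by rw [(hx.pow_left (a * b)).eq]; group
      _ = x ^ a * (x * y ^ b * d ^ b) * d ^ (a * b) := by rw [h1]
      _ = x ^ (a + 1) * y ^ b * (d ^ b * d ^ (a * b)) := by rw [pow_succ]; group
      _ = _ := by rw [← pow_add]; congr 2; ring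

theorem val_two {G : Type} [Group G] {x y d : G} (h : y * x = x * y * d) (hx : Commute d x)
    (hy : Commute d y) {i j : ℕ} (hij : i ≠ j) (t : T) :
    t.val (fun a b : G => a * b) (fun k => if k = i then x else if k = j then y else 1) =
      x ^ cnt i t * y ^ cnt j t * d ^ inv i j t := by
  induction t with
  | var n =>
    simp only [T.val, cnt, inv]
    by_cases h1 : n = i
    · have h2 : n ≠ j := fun h => hij (h1.symm.trans h)
      simp [h1, hij]
    · by_cases h2 : n = j
      · simp [h2, Ne.symm hij]
      · simp [h1, h2]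
  | mul s t ihs iht =>
    simp only [T.val, cnt, inv]
    rw [ihs, iht]
    have e1 : Commute (d ^ inv i j s) (x ^ cnt i t) := hx.pow_pow _ _
    have e2 : Commute (d ^ inv i j s) (y ^ cnt j t) := hy.pow_pow _ _
    have e3 : Commute (d ^ (cnt i t * cnt j s)) (y ^ cnt j t) := hy.pow_pow _ _
    calc x ^ cnt i s * y ^ cnt j s * d ^ inv i j s * (x ^ cnt i t * y ^ cnt j t * d ^ inv i j t)
        = x ^ cnt i s * y ^ cnt j s * (d ^ inv i j s * x ^ cnt i t) * y ^ cnt j t *
            d ^ inv i j t := by group
      _ = x ^ cnt i s * (y ^ cnt j s * x ^ cnt i t) * (d ^ inv i j s * y ^ cnt j t) *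
            d ^ inv i j t := by rw [e1.eq]; group
      _ = x ^ cnt i s * (x ^ cnt i t * y ^ cnt j s * d ^ (cnt i t * cnt j s)) *
            (y ^ cnt j t * d ^ inv i j s) * d ^ inv i j t := by
          rw [comm_pow h hx hy, e2.eq]
      _ = x ^ cnt i s * x ^ cnt i t * y ^ cnt j s * (d ^ (cnt i t * cnt j s) * y ^ cnt j t) *
            d ^ inv i j s * d ^ inv i j t := by group
      _ = x ^ cnt i s * x ^ cnt i t * (y ^ cnt j s * y ^ cnt j t) *
            (d ^ (cnt i t * cnt j s) * d ^ inv i j s * d ^ inv i j t) := by rw [e3.eq]; group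
      _ = _ := by
        rw [← pow_add, ← pow_add, ← pow_add, ← pow_add]
        congr 2
        ring

/-! ### The normal form -/

section nf

variable {H : Type} [Group H]

/-- the commutator -/
def kk (a b : H) : H := a⁻¹ * b⁻¹ * a * b

theorem sq_cen (hs : ∀ a b : H, (a * a) * b = b * (a * a)) (a : H) :
    a * a ∈ Subgroup.center H := by
  rw [Subgroup.mem_center_iff]
  intro b
  exact (hs a b).symm

theorem kk_cen (hs : ∀ a b : H, (a * a) * b = b * (a * a)) (a b : H) :
    kk a b ∈ Subgroup.center H := by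
  have e : kk a b = (a * a)⁻¹ * ((a * b⁻¹) * (a * b⁻¹)) * (b * b) := by
    unfold kk
    group
  rw [e]
  exact Subgroup.mul_mem _ (Subgroup.mul_mem _ (Subgroup.inv_mem _ (sq_cen hs a))
    (sq_cen hs (a * b⁻¹))) (sq_cen hs b)

theorem kk_swap (a b : H) : a * b = b * a * kk a b := by
  unfold kk
  group

theorem kk_sq (hs : ∀ a b : H, (a * a) * b = b * (a * a)) (a b : H) : kk a b * kk a b = 1 := by
  have h1 := Subgroup.mem_center_iff.1 (kk_cen hs a b)
  have h2 : a * a * b = b * (a * a) * (kk a b * kk a b) := by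
    calc a * a * b = a * (a * b) := by group
      _ = a * (b * a * kk a b) := by rw [← kk_swap a b]
      _ = (a * b) * (a * kk a b) := by group
      _ = (b * a * kk a b) * (a * kk a b) := by rw [← kk_swap a b]
      _ = b * a * (kk a b * a) * kk a b := by group
      _ = b * a * (a * kk a b) * kk a b := by rw [h1 a]
      _ = _ := by group
  rw [hs a b] at h2
  exact (mul_eq_left.1 h2.symm)

theorem kk_swap' (hs : ∀ a b : H, (a * a) * b = b * (a * a)) (a b : H) :
    b * a = a * b * kk a b := by
  rw [kk_swap a b, mul_assoc, kk_sq hs, mul_one]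

/-- the commutator as a central element -/
def kc (hs : ∀ a b : H, (a * a) * b = b * (a * a)) (a b : H) : Subgroup.center H :=
  ⟨kk a b, kk_cen hs a b⟩

/-- the ordered product of the powers of the variables -/
def PP (w : ℕ → H) (n : ℕ → ℕ) : ℕ → H
  | 0 => 1
  | N + 1 => PP w n N * w N ^ n N

/-- the product of the commutators -/
def CC (hs : ∀ a b : H, (a * a) * b = b * (a * a)) (w : ℕ → H) (m : ℕ → ℕ → ℕ) (N : ℕ) :
    Subgroup.center H :=
  ∏ j ∈ Finset.range N, ∏ i ∈ Finset.range j, kc hs (w i) (w j) ^ m i j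

theorem CC_succ (hs : ∀ a b : H, (a * a) * b = b * (a * a)) (w : ℕ → H) (m : ℕ → ℕ → ℕ)
    (N : ℕ) : CC hs w m (N + 1) =
      CC hs w m N * ∏ i ∈ Finset.range N, kc hs (w i) (w N) ^ m i N :=
  Finset.prod_range_succ _ _

theorem CC_add (hs : ∀ a b : H, (a * a) * b = b * (a * a)) (w : ℕ → H) (m m' : ℕ → ℕ → ℕ)
    (N : ℕ) : CC hs w (fun i j => m i j + m' i j) N = CC hs w m N * CC hs w m' N := by
  unfold CC
  simp only [pow_add, Finset.prod_mul_distrib]

theorem cen_comm (u : Subgroup.center H) (a : H) : (u : H) * a = a * u :=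
  (Subgroup.mem_center_iff.1 u.2 a).symm

/-- moving a power through the ordered product -/
theorem PP_move (hs : ∀ a b : H, (a * a) * b = b * (a * a)) (w : ℕ → H) (n : ℕ → ℕ) (a : H)
    (r N : ℕ) : a ^ r * PP w n N =
      PP w n N * a ^ r * ((∏ i ∈ Finset.range N, kc hs (w i) a ^ (r * n i) :
        Subgroup.center H) : H) := by
  induction N with
  | zero => simp [PP]
  | succ N ih =>
    set K : Subgroup.center H := ∏ i ∈ Finset.range N, kc hs (w i) a ^ (r * n i) with hK
    have h1 : a ^ r * w N ^ n N = w N ^ n N * a ^ r * kk (w N) a ^ (n N * r) := by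
      refine comm_pow (kk_swap' hs (w N) a) ?_ ?_ (n N) r
      · exact (Subgroup.mem_center_iff.1 (kk_cen hs (w N) a) _).symm
      · exact (Subgroup.mem_center_iff.1 (kk_cen hs (w N) a) _).symm
    rw [Finset.prod_range_succ, ← hK]
    have h2 : ((K * kc hs (w N) a ^ (r * n N) : Subgroup.center H) : H) =
        K * kk (w N) a ^ (n N * r) := by
      rw [mul_comm r]
      rfl
    rw [h2]
    calc a ^ r * PP w n (N + 1) = (a ^ r * PP w n N) * w N ^ n N := by
          show a ^ r * (PP w n N * w N ^ n N) = _
          group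
      _ = PP w n N * a ^ r * ((K : H) * w N ^ n N) := by rw [ih]; group
      _ = PP w n N * (a ^ r * w N ^ n N) * K := by rw [cen_comm]; group
      _ = PP w n N * (w N ^ n N * a ^ r) * (kk (w N) a ^ (n N * r) * (K : H)) := by
          rw [h1]; group
      _ = PP w n N * (w N ^ n N * a ^ r) * ((K : H) * kk (w N) a ^ (n N * r)) := by
          rw [← cen_comm K]
      _ = _ := by
          show _ = (PP w n N * w N ^ n N) * a ^ r * _
          group

theorem PP_mul (hs : ∀ a b : H, (a * a) * b = b * (a * a)) (w : ℕ → H) (n n' : ℕ → ℕ)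
    (N : ℕ) : PP w n N * PP w n' N =
      PP w (fun i => n i + n' i) N * (CC hs w (fun i j => n j * n' i) N : H) := by
  induction N with
  | zero => simp [PP, CC]
  | succ N ih =>
    set C₀ : Subgroup.center H := CC hs w (fun i j => n j * n' i) N with hC
    set K : Subgroup.center H := ∏ i ∈ Finset.range N, kc hs (w i) (w N) ^ (n N * n' i) with hK
    have h1 : CC hs w (fun i j => n j * n' i) (N + 1) = C₀ * K := CC_succ hs w _ N
    have h2 : w N ^ n N * PP w n' N = PP w n' N * w N ^ n N * K := PP_move hs w n' (w N) (n N) N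
    rw [h1]
    calc PP w n (N + 1) * PP w n' (N + 1)
        = PP w n N * (w N ^ n N * PP w n' N) * w N ^ n' N := by
          show (PP w n N * w N ^ n N) * (PP w n' N * w N ^ n' N) = _
          group
      _ = (PP w n N * PP w n' N) * w N ^ n N * ((K : H) * w N ^ n' N) := by rw [h2]; group
      _ = PP w (fun i => n i + n' i) N * ((C₀ : H) * (w N ^ n N * w N ^ n' N)) * K := by
          rw [ih, cen_comm K]; group
      _ = (PP w (fun i => n i + n' i) N * (w N ^ n N * w N ^ n' N)) * ((C₀ : H) * K) := by
          rw [cen_comm C₀]; group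
      _ = _ := by
          rw [← pow_add]
          rfl

theorem PP_zero (w : ℕ → H) (n : ℕ → ℕ) (N : ℕ) (h : ∀ i, i < N → n i = 0) : PP w n N = 1 := by
  induction N with
  | zero => rfl
  | succ N ih =>
    show PP w n N * w N ^ n N = 1
    rw [ih fun i hi => h i (by omega), h N (by omega)]
    simp

theorem PP_single (w : ℕ → H) (n : ℕ → ℕ) (a N : ℕ) (ha : a < N) (h1 : n a = 1)
    (h : ∀ i, i ≠ a → n i = 0) : PP w n N = w a := by
  induction N with
  | zero => omega
  | succ N ih =>
    show PP w n N * w N ^ n N = w a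
    by_cases hN : N = a
    · subst hN
      rw [PP_zero w n N fun i hi => h i (by omega), h1]
      simp
    · rw [ih (by omega), h N hN]
      simp

theorem val_nf (hs : ∀ a b : H, (a * a) * b = b * (a * a)) (w : ℕ → H) (N : ℕ) (t : T)
    (ht : bd t ≤ N) : t.val (fun a b : H => a * b) w =
      PP w (fun i => cnt i t) N * (CC hs w (fun i j => inv i j t) N : H) := by
  induction t with
  | var n =>
    have h1 : CC hs w (fun i j => inv i j (T.var n)) N = 1 := by
      simp [CC, inv]
    have h2 : n + 1 ≤ N := ht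
    rw [h1, PP_single w _ n N (by omega) (by simp [cnt]) (fun i hi => by simp [cnt, Ne.symm hi])]
    simp [T.val]
  | mul s t ihs iht =>
    have hb : max (bd s) (bd t) ≤ N := ht
    have hb1 : bd s ≤ N := (le_max_left _ _).trans hb
    have hb2 : bd t ≤ N := (le_max_right _ _).trans hb
    have e1 : CC hs w (fun i j => inv i j (T.mul s t)) N =
        CC hs w (fun i j => inv i j s) N * CC hs w (fun i j => inv i j t) N *
          CC hs w (fun i j => cnt j s * cnt i t) N := by
      rw [← CC_add, ← CC_add]
      rfl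
    have e2 : PP w (fun i => cnt i (T.mul s t)) N = PP w (fun i => cnt i s + cnt i t) N := rfl
    rw [e1, e2]
    simp only [T.val]
    rw [ihs hb1, iht hb2]
    set A := CC hs w (fun i j => inv i j s) N
    set B := CC hs w (fun i j => inv i j t) N
    set D := CC hs w (fun i j => cnt j s * cnt i t) N
    calc PP w (fun i => cnt i s) N * (A : H) * (PP w (fun i => cnt i t) N * (B : H))
        = PP w (fun i => cnt i s) N * ((A : H) * PP w (fun i => cnt i t) N) * B := by group
      _ = (PP w (fun i => cnt i s) N * PP w (fun i => cnt i t) N) * ((A : H) * B) := by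
          rw [cen_comm A]; group
      _ = PP w (fun i => cnt i s + cnt i t) N * ((D : H) * ((A : H) * B)) := by
          rw [PP_mul hs w (fun i => cnt i s) (fun i => cnt i t) N]
          exact mul_assoc _ _ _
      _ = _ := by
          rw [cen_comm D]
          rfl

theorem pow_mod_eq {M : Type} [Monoid M] {a : M} {k m n : ℕ} (h : a ^ k = 1)
    (hmn : m % k = n % k) : a ^ m = a ^ n := by
  rw [pow_eq_pow_mod m h, pow_eq_pow_mod n h, hmn]

theorem PP_congr (h4 : ∀ a : H, a ^ 4 = 1) (w : ℕ → H) (n n' : ℕ → ℕ)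
    (h : ∀ i, n i % 4 = n' i % 4) (N : ℕ) : PP w n N = PP w n' N := by
  induction N with
  | zero => rfl
  | succ N ih =>
    show PP w n N * w N ^ n N = PP w n' N * w N ^ n' N
    rw [ih, pow_mod_eq (h4 (w N)) (h N)]

theorem CC_congr (hs : ∀ a b : H, (a * a) * b = b * (a * a)) (w : ℕ → H) (m m' : ℕ → ℕ → ℕ)
    (h : ∀ i j, i < j → m i j % 2 = m' i j % 2) (N : ℕ) : CC hs w m N = CC hs w m' N := by
  unfold CC
  refine Finset.prod_congr rfl fun j _ => Finset.prod_congr rfl fun i hi => ?_
  refine pow_mod_eq (k := 2) ?_ (h i j (Finset.mem_range.1 hi))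
  rw [pow_two]
  exact Subtype.ext (kk_sq hs (w i) (w j))

end nf

theorem mod_of_pow {G : Type} [Group G] {z : G} {k m n : ℕ} (h : ∀ n : ℕ, z ^ n = 1 → k ∣ n)
    (hmn : z ^ m = z ^ n) : m % k = n % k := by
  rcases le_total m n with h1 | h1
  · obtain ⟨r, rfl⟩ := Nat.exists_eq_add_of_le h1
    rw [pow_add] at hmn
    obtain ⟨q, rfl⟩ := h r (mul_eq_left.1 hmn.symm)
    simp
  · obtain ⟨r, rfl⟩ := Nat.exists_eq_add_of_le h1
    rw [pow_add] at hmn
    obtain ⟨q, rfl⟩ := h r (mul_eq_left.1 hmn)
    simp

/-- the identities of class two -/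
theorem leaf_two : Lf_two := by
  intro E G _ x y z c hc hxc hyc hc2 hz4 hE H _ hs h4 p hp w
  have hcnt : ∀ i, cnt i p.1 % 4 = cnt i p.2 % 4 := by
    intro i
    have h1 := hE p hp (fun k => if k = i then z else 1)
    rw [val_one, val_one] at h1
    exact mod_of_pow hz4 h1
  have hinv : ∀ i j, i < j → inv i j p.1 % 2 = inv i j p.2 % 2 := by
    intro i j hij
    have hd : y * x = x * y * c⁻¹ := by
      rw [hc]
      group
    have hdx : Commute c⁻¹ x := (Commute.inv_left (show Commute c x from hxc.symm))
    have hdy : Commute c⁻¹ y := (Commute.inv_left (show Commute c y from hyc.symm))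
    have h1 := hE p hp (fun k => if k = i then x else if k = j then y else 1)
    rw [val_two hd hdx hdy hij.ne, val_two hd hdx hdy hij.ne] at h1
    have h2 := hE p hp (fun k => if k = i then x else 1)
    rw [val_one, val_one] at h2
    have h3 := hE p hp (fun k => if k = j then y else 1)
    rw [val_one, val_one] at h3
    rw [h2, h3] at h1
    have h4 := mul_left_cancel h1
    refine mod_of_pow (z := c⁻¹) (fun n hn => hc2 n ?_) h4
    rw [inv_pow, inv_eq_one] at hn
    exact hn
  rw [val_nf hs w (max (bd p.1) (bd p.2)) p.1 (le_max_left _ _),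
    val_nf hs w (max (bd p.1) (bd p.2)) p.2 (le_max_right _ _), PP_congr h4 w _ _ hcnt,
    CC_congr hs w _ _ hinv]

end Pool.Agent.H763.FV
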